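import Mathlib

set_option autoImplicit false

open scoped ContDiff InnerProductSpace
open Laplacian

namespace Pool.Agent.Results.MP_3d7355_an.Counterexample

/-- Points of `ℝ^n`, `n = m + 1`, written as pairs `(t, y)` with `t ∈ ℝ` and `y ∈ ℝ^m`, with the
Euclidean (inner product) structure. -/
abbrev Pt (m : ℕ) : Type := WithLp 2 (ℝ × EuclideanSpace ℝ (Fin m))

/-- The point `(t, y)`. -/
noncomputable def pt {m : ℕ} (t : ℝ) (y : EuclideanSpace ℝ (Fin m)) : Pt m := WithLp.toLp 2 (t, y)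

lemma iterated_two_eq {E : Type*} [NormedAddCommGroup E] [NormedSpace ℝ E] {u : E → ℝ}
    (hu : ContDiff ℝ 2 u) (x e : E) :
    iteratedFDeriv ℝ 2 u x ![e, e] = deriv (deriv (fun s : ℝ => u (x + s • e))) 0 := by
  have h1 : ∀ s : ℝ, HasDerivAt (fun s : ℝ => x + s • e) e s := by
    intro s
    have := ((hasDerivAt_id s).smul_const e).const_add x
    simpa using this
  have hd : Differentiable ℝ u := hu.differentiable (by norm_num)
  have h2 : deriv (fun s : ℝ => u (x + s • e)) = fun s => fderiv ℝ u (x + s • e) e := by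
    funext s
    exact ((hd (x + s • e)).hasFDerivAt.comp_hasDerivAt s (h1 s)).deriv
  have hf : ContDiff ℝ 1 (fderiv ℝ u) := hu.fderiv_right (by norm_num)
  have hfd : Differentiable ℝ (fderiv ℝ u) := hf.differentiable (by norm_num)
  rw [iteratedFDeriv_two_apply, h2]
  have h3 : HasDerivAt (fun s : ℝ => fderiv ℝ u (x + s • e)) (fderiv ℝ (fderiv ℝ u) (x + (0:ℝ) • e) e) 0 :=
    (hfd (x + (0:ℝ) • e)).hasFDerivAt.comp_hasDerivAt 0 (h1 0)
  have h4 : HasDerivAt (fun s : ℝ => fderiv ℝ u (x + s • e) e)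
      (fderiv ℝ (fderiv ℝ u) (x + (0:ℝ) • e) e e) 0 := by
    have := h3.clm_apply (hasDerivAt_const (0:ℝ) e)
    simpa using this
  rw [h4.deriv]
  simp

/-- The family of functions used: `A |y|^2 (a t - b t^2) + c t^5`. -/
noncomputable def W {m : ℕ} (A a b c : ℝ) (x : Pt m) : ℝ :=
  A * ‖x.snd‖ ^ 2 * (a * x.fst - b * x.fst ^ 2) + c * x.fst ^ 5

lemma W_contDiff {m : ℕ} (A a b c : ℝ) : ContDiff ℝ ∞ (W (m := m) A a b c) := by
  have h1 : ContDiff ℝ ∞ (fun x : Pt m => x.fst) :=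
    (WithLp.fstL 2 ℝ ℝ (EuclideanSpace ℝ (Fin m))).contDiff
  have h2 : ContDiff ℝ ∞ (fun x : Pt m => x.snd) :=
    (WithLp.sndL 2 ℝ ℝ (EuclideanSpace ℝ (Fin m))).contDiff
  have h3 : ContDiff ℝ ∞ (fun x : Pt m => ‖x.snd‖ ^ 2) := h2.norm_sq ℝ
  unfold W
  exact ((contDiff_const.mul h3).mul ((contDiff_const.mul h1).sub
    (contDiff_const.mul (h1.pow 2)))).add (contDiff_const.mul (h1.pow 5))

lemma W_pt {m : ℕ} (A a b c t : ℝ) (y : EuclideanSpace ℝ (Fin m)) :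
    W A a b c (pt t y) = A * ‖y‖ ^ 2 * (a * t - b * t ^ 2) + c * t ^ 5 := by
  simp [W, pt]

lemma W_laplacian {m : ℕ} (A a b c t : ℝ) (y : EuclideanSpace ℝ (Fin m)) :
    Δ (W (m := m) A a b c) (pt t y)
      = A * (2 * m * (a * t - b * t ^ 2) - 2 * b * ‖y‖ ^ 2) + 20 * c * t ^ 3 := by
  have hC : ContDiff ℝ 2 (W (m := m) A a b c) := (W_contDiff A a b c).of_le (by norm_cast)
  rw [InnerProductSpace.laplacian_eq_iteratedFDeriv_orthonormalBasis _
    ((OrthonormalBasis.singleton Unit ℝ).prod (EuclideanSpace.basisFun (Fin m) ℝ))]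
  simp only [Fintype.sum_sum_type, iterated_two_eq hC]
  have e1 : ∀ i : Unit, deriv (deriv (fun s : ℝ => W A a b c (pt t y + s •
      ((OrthonormalBasis.singleton Unit ℝ).prod (EuclideanSpace.basisFun (Fin m) ℝ)) (Sum.inl i)))) 0
      = - (2 * A * b * ‖y‖ ^ 2) + 20 * c * t ^ 3 := by
    intro i
    have : (fun s : ℝ => W A a b c (pt t y + s •
      ((OrthonormalBasis.singleton Unit ℝ).prod (EuclideanSpace.basisFun (Fin m) ℝ)) (Sum.inl i)))
      = fun s : ℝ => A * ‖y‖ ^ 2 * (a * (t + s) - b * (t + s) ^ 2) + c * (t + s) ^ 5 := by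
      funext s
      simp [W, pt]
    rw [this]
    have hd1 : ∀ s : ℝ, HasDerivAt (fun s : ℝ => A * ‖y‖ ^ 2 * (a * (t + s) - b * (t + s) ^ 2) + c * (t + s) ^ 5)
        (A * ‖y‖ ^ 2 * (a - 2 * b * (t + s)) + 5 * c * (t + s) ^ 4) s := by
      intro s
      have h := (hasDerivAt_id s).const_add t
      have := (((h.const_mul a).sub ((h.pow 2).const_mul b)).const_mul (A * ‖y‖ ^ 2)).add
        ((h.pow 5).const_mul c)
      refine this.congr_deriv ?_
      simp only [id]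
      push_cast
      ring
    have hd2 : HasDerivAt (fun s : ℝ => A * ‖y‖ ^ 2 * (a - 2 * b * (t + s)) + 5 * c * (t + s) ^ 4)
        (- (2 * A * b * ‖y‖ ^ 2) + 20 * c * t ^ 3) 0 := by
      have h := (hasDerivAt_id (0:ℝ)).const_add t
      have := (((h.const_mul (2 * b)).const_sub a).const_mul (A * ‖y‖ ^ 2)).add
        ((h.pow 4).const_mul (5 * c))
      refine this.congr_deriv ?_
      simp only [id]
      push_cast
      ring
    have : deriv (fun s : ℝ => A * ‖y‖ ^ 2 * (a * (t + s) - b * (t + s) ^ 2) + c * (t + s) ^ 5)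
      = fun s => A * ‖y‖ ^ 2 * (a - 2 * b * (t + s)) + 5 * c * (t + s) ^ 4 := by
      funext s; exact (hd1 s).deriv
    rw [this, hd2.deriv]
  have e2 : ∀ i : Fin m, deriv (deriv (fun s : ℝ => W A a b c (pt t y + s •
      ((OrthonormalBasis.singleton Unit ℝ).prod (EuclideanSpace.basisFun (Fin m) ℝ)) (Sum.inr i)))) 0
      = 2 * A * (a * t - b * t ^ 2) := by
    intro i
    have : (fun s : ℝ => W A a b c (pt t y + s •
      ((OrthonormalBasis.singleton Unit ℝ).prod (EuclideanSpace.basisFun (Fin m) ℝ)) (Sum.inr i)))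
      = fun s : ℝ => A * (‖y‖ ^ 2 + 2 * s * y i + s ^ 2) * (a * t - b * t ^ 2) + c * t ^ 5 := by
      funext s
      have hn : ‖y + s • EuclideanSpace.single i (1:ℝ)‖ ^ 2 = ‖y‖ ^ 2 + 2 * s * y i + s ^ 2 := by
        rw [norm_add_sq_real, inner_smul_right, EuclideanSpace.inner_single_right, norm_smul]
        simp
        ring
      simp [W, pt, hn]
    rw [this]
    have hd1 : ∀ s : ℝ, HasDerivAt (fun s : ℝ => A * (‖y‖ ^ 2 + 2 * s * y i + s ^ 2) * (a * t - b * t ^ 2) + c * t ^ 5)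
        (A * (2 * y i + 2 * s) * (a * t - b * t ^ 2)) s := by
      intro s
      have h := hasDerivAt_id s
      have := (((((h.const_mul 2).mul_const (y i)).const_add (‖y‖ ^ 2)).add (h.pow 2)).const_mul A).mul_const (a * t - b * t ^ 2) |>.add_const (c * t ^ 5)
      refine this.congr_deriv ?_
      simp only [id]
      push_cast
      ring
    have hd2 : HasDerivAt (fun s : ℝ => A * (2 * y i + 2 * s) * (a * t - b * t ^ 2))
        (2 * A * (a * t - b * t ^ 2)) 0 := by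
      have h := hasDerivAt_id (0:ℝ)
      have := (((h.const_mul 2).const_add (2 * y i)).const_mul A).mul_const (a * t - b * t ^ 2)
      refine this.congr_deriv ?_
      ring
    have : deriv (fun s : ℝ => A * (‖y‖ ^ 2 + 2 * s * y i + s ^ 2) * (a * t - b * t ^ 2) + c * t ^ 5)
      = fun s => A * (2 * y i + 2 * s) * (a * t - b * t ^ 2) := by
      funext s; exact (hd1 s).deriv
    rw [this, hd2.deriv]
  simp only [e1, e2]
  simp
  ring

/-- The cylinder `Ω = {(t, y) : |y| < 1, 0 < t < 1}` in `ℝ^{m+1}`. -/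
def Omega (m : ℕ) : Set (Pt m) := {x | ‖x.snd‖ < 1 ∧ 0 < x.fst ∧ x.fst < 1}

lemma compare_aux (N Y s t : ℝ) (hN : 1 ≤ N) (hY : 0 ≤ Y) (ht : 0 < t) (hts : t ≤ s) (hs : s < 1)
    (h : 1000 * Y * (t - 1 / 2 * t ^ 2) + t ^ 5
      = 1000 * Y * (1 / 2 * s - 1 / 8 * s ^ 2) + 1 / 1024 * s ^ 5) :
    1000 * (2 * N * (t - 1 / 2 * t ^ 2) - Y) + 20 * t ^ 3
      ≤ 1000 * (2 * N * (1 / 2 * s - 1 / 8 * s ^ 2) - 1 / 4 * Y) + 20 * (1 / 1024) * s ^ 3 := by
  have hs0 : 0 < s := lt_of_lt_of_le ht hts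
  obtain ⟨D, hD⟩ : ∃ D : ℝ, D = (1 / 2 * s - 1 / 8 * s ^ 2) - (t - 1 / 2 * t ^ 2) := ⟨_, rfl⟩
  have hD' : D = (s / 2 - t) * (1 - (s / 2 + t) / 2) := by rw [hD]; ring
  have h1 : 1000 * Y * D = t ^ 5 - 1 / 1024 * s ^ 5 := by rw [hD]; linarith
  have hs5 : 0 < s ^ 5 := by positivity
  have hlt : t < s / 2 := by
    by_contra hcon
    push Not at hcon
    have hD0 : D ≤ 0 := by
      rw [hD']
      apply mul_nonpos_of_nonpos_of_nonneg <;> linarith
    have h2 : 1000 * Y * D ≤ 0 := mul_nonpos_of_nonneg_of_nonpos (by positivity) hD0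
    have h3 : (s / 2) ^ 5 ≤ t ^ 5 := pow_le_pow_left₀ (by positivity) hcon 5
    have h4 : (s / 2) ^ 5 = 1 / 32 * s ^ 5 := by ring
    linarith
  have hDlow : (s / 2 - t) / 2 ≤ D := by
    rw [hD']
    have : 1 / 2 ≤ 1 - (s / 2 + t) / 2 := by linarith
    nlinarith
  have hDpos : 0 < D := by linarith
  have hND : D ≤ N * D := by nlinarith
  have ht3 : t ^ 3 ≤ 1 / 8 * s ^ 3 := by
    have : t ^ 3 ≤ (s / 2) ^ 3 := pow_le_pow_left₀ ht.le hlt.le 3
    calc t ^ 3 ≤ (s / 2) ^ 3 := this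
      _ = 1 / 8 * s ^ 3 := by ring
  have hs3 : 0 < s ^ 3 := by positivity
  have key : 20 * t ^ 3 - 20 * (1 / 1024) * s ^ 3 ≤ 2000 * D + 750 * Y := by
    rcases le_or_gt (s ^ 3 / 800) D with hc | hc
    · nlinarith
    · have hs31 : s ^ 3 ≤ s := by nlinarith [mul_pos hs0 hs0]
      have ht1 : 199 / 400 * s ≤ t := by linarith
      have ht5 : (199 / 400 * s) ^ 5 ≤ t ^ 5 := pow_le_pow_left₀ (by positivity) ht1 5
      have h6 : 1000 * Y * D ≤ 1000 * Y * (s ^ 3 / 800) :=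
        mul_le_mul_of_nonneg_left hc.le (by positivity)
      have h7 : 29 / 1000 * s ^ 5 ≤ 5 / 4 * Y * s ^ 3 := by
        have : (199 / 400 * s) ^ 5 = (199 / 400) ^ 5 * s ^ 5 := by ring
        rw [this] at ht5
        have h8 : (1000 * Y * (s ^ 3 / 800)) = 5 / 4 * Y * s ^ 3 := by ring
        rw [h8, h1] at h6
        have h9 : (29 / 1000 + 1 / 1024 : ℝ) ≤ (199 / 400) ^ 5 := by norm_num
        nlinarith
      have h10 : 29 / 1000 * s ^ 2 ≤ 5 / 4 * Y := by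
        have : 29 / 1000 * s ^ 2 * s ^ 3 ≤ 5 / 4 * Y * s ^ 3 := by
          calc 29 / 1000 * s ^ 2 * s ^ 3 = 29 / 1000 * s ^ 5 := by ring
            _ ≤ _ := h7
        exact le_of_mul_le_mul_right this hs3
      have h11 : s ^ 3 ≤ s ^ 2 := by nlinarith [mul_pos hs0 hs0]
      nlinarith
  have : 1000 * (2 * N * (1 / 2 * s - 1 / 8 * s ^ 2)) - 1000 * (2 * N * (t - 1 / 2 * t ^ 2))
      = 2000 * (N * D) := by rw [hD]; ring
  linarith

lemma iter5 (c : ℝ) (hc : c ≠ 0) : iteratedDeriv 5 (fun τ : ℝ => c * τ ^ 5) 0 ≠ 0 := by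
  rw [iteratedDeriv_eq_iterate]
  simp [hc]

/-- **The answer to Q1 is negative, in every dimension `n = m + 1 ≥ 2`.**  There are `u, v`, smooth
on all of `ℝ^n` (in fact polynomials), which satisfy conditions 1-5 of the problem on the cylinder
`Ω`, and `u > v` everywhere in `Ω`.  The clauses are, in order: smoothness of `u` and `v`; `u > v` in
`Ω` (and `Ω` is not empty); condition 1 (`u > 0`, `v > 0`, `u_t > 0` in `Ω`); condition 2
(`u(0, y) = 0`); condition 3 (the comparison condition); condition 4 (`u_t(0, 0) = 0`); condition 5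
(`u(t, 0)` and `v(t, 0)` vanish at `t = 0`, to finite order).  `Δ` is the Laplacian in all
`n = m + 1` variables (Mathlib's Laplacian of a real inner product space). -/
theorem result : ∀ m : ℕ, 1 ≤ m → ∃ u v : Pt m → ℝ,
    ContDiff ℝ ∞ u ∧ ContDiff ℝ ∞ v ∧
    (∀ x ∈ Omega m, v x < u x) ∧ (Omega m).Nonempty ∧
    (∀ x ∈ Omega m, 0 < u x ∧ 0 < v x) ∧
    (∀ (t : ℝ) (y : EuclideanSpace ℝ (Fin m)), pt t y ∈ Omega m →
      0 < deriv (fun τ : ℝ => u (pt τ y)) t) ∧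
    (∀ y : EuclideanSpace ℝ (Fin m), ‖y‖ < 1 → u (pt 0 y) = 0) ∧
    (∀ (t s : ℝ) (y : EuclideanSpace ℝ (Fin m)), 0 < t → t ≤ s → s < 1 → ‖y‖ < 1 →
      u (pt t y) = v (pt s y) → Δ u (pt t y) ≤ Δ v (pt s y)) ∧
    deriv (fun τ : ℝ => u (pt τ 0)) 0 = 0 ∧
    (u (pt 0 0) = 0 ∧ ∃ k : ℕ, iteratedDeriv k (fun τ : ℝ => u (pt τ 0)) 0 ≠ 0) ∧
    (v (pt 0 0) = 0 ∧ ∃ k : ℕ, iteratedDeriv k (fun τ : ℝ => v (pt τ 0)) 0 ≠ 0) := by
  intro m hm
  refine ⟨W 1000 1 (1/2) 1, W 1000 (1/2) (1/8) (1/1024), W_contDiff _ _ _ _, W_contDiff _ _ _ _,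
    ?_, ⟨pt (1/2) 0, by simp [Omega, pt]; norm_num⟩, ?_, ?_, ?_, ?_, ?_, ⟨?_, 5, ?_⟩, ⟨?_, 5, ?_⟩⟩
  · intro x hx
    obtain ⟨_, h0, h1⟩ := hx
    simp only [W]
    have hy : 0 ≤ ‖x.snd‖ ^ 2 := by positivity
    have h5 : 0 < x.fst ^ 5 := by positivity
    have : 1000 * ‖x.snd‖ ^ 2 * (1 / 2 * x.fst - 1 / 8 * x.fst ^ 2)
        ≤ 1000 * ‖x.snd‖ ^ 2 * (1 * x.fst - 1 / 2 * x.fst ^ 2) := by
      apply mul_le_mul_of_nonneg_left _ (by positivity)
      nlinarith
    linarith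
  · intro x hx
    obtain ⟨_, h0, h1⟩ := hx
    simp only [W]
    have hy : 0 ≤ 1000 * ‖x.snd‖ ^ 2 := by positivity
    have h5 : 0 < x.fst ^ 5 := by positivity
    have h2 : 0 ≤ 1 * x.fst - 1 / 2 * x.fst ^ 2 := by nlinarith
    have h3 : 0 ≤ 1 / 2 * x.fst - 1 / 8 * x.fst ^ 2 := by nlinarith
    constructor
    · have := mul_nonneg hy h2
      linarith
    · have := mul_nonneg hy h3
      linarith
  · intro t y hty
    obtain ⟨_, h0, h1⟩ := hty
    have h0' : 0 < t := by simpa [pt] using h0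
    have h1' : t < 1 := by simpa [pt] using h1
    have hd : HasDerivAt (fun τ : ℝ => W 1000 1 (1/2) 1 (pt τ y))
        (1000 * ‖y‖ ^ 2 * (1 - t) + 5 * t ^ 4) t := by
      have e : (fun τ : ℝ => W 1000 1 (1/2) 1 (pt τ y))
        = fun τ : ℝ => 1000 * ‖y‖ ^ 2 * (1 * τ - 1 / 2 * τ ^ 2) + 1 * τ ^ 5 := by
        funext τ; rw [W_pt]
      rw [e]
      have h := hasDerivAt_id t
      have := (((h.const_mul 1).sub ((h.pow 2).const_mul (1/2))).const_mul (1000 * ‖y‖ ^ 2)).add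
        ((h.pow 5).const_mul 1)
      refine this.congr_deriv ?_
      simp only [id]
      push_cast
      ring
    rw [hd.deriv]
    have : 0 ≤ 1000 * ‖y‖ ^ 2 * (1 - t) := mul_nonneg (by positivity) (by linarith)
    positivity
  · intro y _
    rw [W_pt]; ring
  · intro t s y ht hts hs hy h
    rw [W_pt, W_pt] at h
    rw [W_laplacian, W_laplacian]
    have := compare_aux m (‖y‖ ^ 2) s t (by exact_mod_cast hm) (by positivity) ht hts hs (by linarith)
    linarith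
  · have e : (fun τ : ℝ => W 1000 1 (1/2) 1 (pt τ (0 : EuclideanSpace ℝ (Fin m))))
        = fun τ : ℝ => 1 * τ ^ 5 := by
      funext τ; rw [W_pt]; simp
    rw [e]
    simp
  · rw [W_pt]; simp
  · have e : (fun τ : ℝ => W 1000 1 (1/2) 1 (pt τ (0 : EuclideanSpace ℝ (Fin m))))
        = fun τ : ℝ => 1 * τ ^ 5 := by
      funext τ; rw [W_pt]; simp
    rw [e]
    exact iter5 1 (by norm_num)
  · rw [W_pt]; simp
  · have e : (fun τ : ℝ => W 1000 (1/2) (1/8) (1/1024) (pt τ (0 : EuclideanSpace ℝ (Fin m))))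
        = fun τ : ℝ => (1/1024) * τ ^ 5 := by
      funext τ; rw [W_pt]; simp
    rw [e]
    exact iter5 (1/1024) (by norm_num)

end Pool.Agent.Results.MP_3d7355_an.Counterexample
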